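import Mathlib

/-!
# Symmetric monotone vector variational inequalities with disconnected solution sets

The example: `n = 3`, `m = 2`, `K = {(x, t, u) : 1 ≤ x}`, and `F_l = ∇ f_l` for the convex functions
`f_1 = t ^ 2 / 2 + t u + t + 2 u ^ 2 + 16 u + r ^ 3 / x ^ 2`, `f_2 (x, t, u) = f_1 (x, t, - u)`, where
`r = max (- t) 0`. There is no weak Pareto solution with `u = 0`; the points `(1, 0, -2)` and `(1, 0, 2)` are proper
Pareto solutions (with the weights `(3 / 4, 1 / 4)` and `(1 / 4, 3 / 4)`).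
-/

set_option autoImplicit false

open scoped RealInnerProductSpace

namespace Pool.Agent.Results.MP_e5975b_an.Disconnected

/-- The Pareto solution set: the points `x` of `K` such that for no `y` in `K` the vector of the `⟪F_l x, x - y⟫`
belongs to `ℝ ^ m_+ \ {0}`. -/
def Sol {n m : ℕ} (F : Fin m → EuclideanSpace ℝ (Fin n) → EuclideanSpace ℝ (Fin n))
    (K : Set (EuclideanSpace ℝ (Fin n))) : Set (EuclideanSpace ℝ (Fin n)) :=
  {x | x ∈ K ∧ ∀ y ∈ K, ¬ ((∀ l, 0 ≤ ⟪F l x, x - y⟫) ∧ ∃ l, ⟪F l x, x - y⟫ ≠ 0)}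

/-- The weak Pareto solution set: the points `x` of `K` such that for no `y` in `K` all the `⟪F_l x, x - y⟫` are
positive. -/
def SolW {n m : ℕ} (F : Fin m → EuclideanSpace ℝ (Fin n) → EuclideanSpace ℝ (Fin n))
    (K : Set (EuclideanSpace ℝ (Fin n))) : Set (EuclideanSpace ℝ (Fin n)) :=
  {x | x ∈ K ∧ ∀ y ∈ K, ¬ (∀ l, 0 < ⟪F l x, x - y⟫)}

/-- The proper Pareto solution set: the points `x` of `K` which for some positive weights `ξ_l` with sum one solve the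
variational inequality of `∑ l, ξ_l F_l`. -/
def SolPr {n m : ℕ} (F : Fin m → EuclideanSpace ℝ (Fin n) → EuclideanSpace ℝ (Fin n))
    (K : Set (EuclideanSpace ℝ (Fin n))) : Set (EuclideanSpace ℝ (Fin n)) :=
  {x | x ∈ K ∧ ∃ ξ : Fin m → ℝ, (∀ l, 0 < ξ l) ∧ ∑ l, ξ l = 1 ∧ ∀ y ∈ K, 0 ≤ ⟪∑ l, ξ l • F l x, y - x⟫}

/-- `F_1, ..., F_m` are monotone on `K`. -/
def MonotoneOnSet {n m : ℕ} (F : Fin m → EuclideanSpace ℝ (Fin n) → EuclideanSpace ℝ (Fin n))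
    (K : Set (EuclideanSpace ℝ (Fin n))) : Prop :=
  ∀ l, ∀ x ∈ K, ∀ y ∈ K, 0 ≤ ⟪F l y - F l x, y - x⟫

/-- Every `F_l` is differentiable on an open set which contains `K`, and its Jacobian matrix is symmetric there. -/
def Symmetric {n m : ℕ} (F : Fin m → EuclideanSpace ℝ (Fin n) → EuclideanSpace ℝ (Fin n))
    (K : Set (EuclideanSpace ℝ (Fin n))) : Prop :=
  ∀ l, ∃ U : Set (EuclideanSpace ℝ (Fin n)), IsOpen U ∧ K ⊆ U ∧ ∀ x ∈ U, DifferentiableAt ℝ (F l) x ∧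
    ∀ i j, (fderiv ℝ (F l) x (EuclideanSpace.single j 1)) i = (fderiv ℝ (F l) x (EuclideanSpace.single i 1)) j

/-- the set of the example -/
def K3 : Set (EuclideanSpace ℝ (Fin 3)) := {x | 1 ≤ x 0}

/-- the negative part -/
noncomputable def r (t : ℝ) : ℝ := max (-t) 0

/-- the maps of the example, with a parameter `σ = ± 1` -/
noncomputable def G (σ : ℝ) (x : EuclideanSpace ℝ (Fin 3)) : EuclideanSpace ℝ (Fin 3) :=
  !₂[-2 * (r (x 1) ^ 3 * (x 0)⁻¹ ^ 3), x 1 + σ * x 2 + 1 - 3 * (r (x 1) ^ 2 * (x 0)⁻¹ ^ 2), σ * x 1 + 4 * x 2 + σ * 16]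

/-- the maps of the example -/
noncomputable def F3 : Fin 2 → EuclideanSpace ℝ (Fin 3) → EuclideanSpace ℝ (Fin 3) :=
  fun l => if l = 0 then G 1 else G (-1)

theorem r_nonneg (t : ℝ) : 0 ≤ r t := le_max_right _ _

theorem r_of_nonneg {t : ℝ} (h : 0 ≤ t) : r t = 0 := max_eq_right (by linarith)

theorem r_of_neg {t : ℝ} (h : t < 0) : r t = -t := max_eq_left (by linarith)

theorem inner3 (x y : EuclideanSpace ℝ (Fin 3)) : ⟪x, y⟫ = x 0 * y 0 + x 1 * y 1 + x 2 * y 2 := by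
  simp [PiLp.inner_apply, Fin.sum_univ_three]
  ring

theorem inG (σ : ℝ) (x z : EuclideanSpace ℝ (Fin 3)) : ⟪G σ x, z⟫ =
    -2 * (r (x 1) ^ 3 * (x 0)⁻¹ ^ 3) * z 0 + (x 1 + σ * x 2 + 1 - 3 * (r (x 1) ^ 2 * (x 0)⁻¹ ^ 2)) * z 1 +
      (σ * x 1 + 4 * x 2 + σ * 16) * z 2 := by
  rw [inner3]
  simp [G]

theorem deriv_r (n : ℕ) (hn : 2 ≤ n) (t : ℝ) :
    HasDerivAt (fun t : ℝ => r t ^ n) (-(n * r t ^ (n - 1))) t := by
  rcases lt_trichotomy t 0 with h | h | h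
  · have h1 : (fun t : ℝ => r t ^ n) =ᶠ[nhds t] (fun t => (-t) ^ n) := by
      filter_upwards [gt_mem_nhds h] with s hs
      rw [r_of_neg hs]
    have h2 : HasDerivAt (fun t : ℝ => (-t) ^ n) (n * (-t) ^ (n - 1) * (-1)) t := (hasDerivAt_neg t).pow n
    rw [r_of_neg h]
    refine (h2.congr_of_eventuallyEq h1).congr_deriv ?_
    ring
  · subst h
    have h1 : (fun t : ℝ => r t ^ n) =O[nhds 0] (fun t : ℝ => ‖t - 0‖ ^ n) := by
      apply Asymptotics.IsBigO.of_bound 1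
      filter_upwards with s
      rw [one_mul, sub_zero, norm_pow, norm_pow, norm_norm]
      apply pow_le_pow_left₀ (norm_nonneg _)
      rw [Real.norm_eq_abs, abs_of_nonneg (r_nonneg s), Real.norm_eq_abs]
      exact max_le (neg_le_abs s) (abs_nonneg s)
    have h2 : HasFDerivAt (fun t : ℝ => r t ^ n) (0 : ℝ →L[ℝ] ℝ) 0 := h1.hasFDerivAt (by omega)
    refine h2.hasDerivAt.congr_deriv ?_
    rw [r_of_nonneg le_rfl, zero_pow (by omega)]
    simp
  · have h1 : (fun t : ℝ => r t ^ n) =ᶠ[nhds t] (fun _ => 0) := by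
      filter_upwards [lt_mem_nhds h] with s hs
      rw [r_of_nonneg (le_of_lt hs), zero_pow (by omega)]
    rw [r_of_nonneg h.le, zero_pow (by omega), mul_zero, neg_zero]
    exact (hasDerivAt_const t (0 : ℝ)).congr_of_eventuallyEq h1

/-- the Jacobian matrix -/
noncomputable def J (σ : ℝ) (x : EuclideanSpace ℝ (Fin 3)) : EuclideanSpace ℝ (Fin 3) →ₗ[ℝ] EuclideanSpace ℝ (Fin 3) where
  toFun v := !₂[6 * (r (x 1) ^ 3 * (x 0)⁻¹ ^ 4) * v 0 + 6 * (r (x 1) ^ 2 * (x 0)⁻¹ ^ 3) * v 1,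
    6 * (r (x 1) ^ 2 * (x 0)⁻¹ ^ 3) * v 0 + (1 + 6 * (r (x 1) * (x 0)⁻¹ ^ 2)) * v 1 + σ * v 2,
    σ * v 1 + 4 * v 2]
  map_add' := by intro v w; ext i; fin_cases i <;> simp <;> ring
  map_smul' := by intro c v; ext i; fin_cases i <;> simp <;> ring

theorem hasFDerivAt_G (σ : ℝ) (x : EuclideanSpace ℝ (Fin 3)) (hx : x 0 ≠ 0) :
    HasFDerivAt (G σ) (J σ x).toContinuousLinearMap x := by
  have hp : ∀ i : Fin 3, HasFDerivAt (fun y : EuclideanSpace ℝ (Fin 3) => y i)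
      (EuclideanSpace.proj i : EuclideanSpace ℝ (Fin 3) →L[ℝ] ℝ) x := fun i =>
    (EuclideanSpace.proj i : EuclideanSpace ℝ (Fin 3) →L[ℝ] ℝ).hasFDerivAt
  have h3 := (deriv_r 3 (by norm_num) (x 1)).comp_hasFDerivAt x (hp 1)
  have h2 := (deriv_r 2 (by norm_num) (x 1)).comp_hasFDerivAt x (hp 1)
  have hi := (hasDerivAt_inv hx).comp_hasFDerivAt x (hp 0)
  simp only [Function.comp_def] at h3 h2 hi
  have hi3 := hi.pow 3
  have hi2 := hi.pow 2
  rw [← hasFDerivWithinAt_univ, hasFDerivWithinAt_euclidean]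
  intro i
  rw [hasFDerivWithinAt_univ]
  fin_cases i
  · show HasFDerivAt (fun y : EuclideanSpace ℝ (Fin 3) => -2 * (r (y 1) ^ 3 * (y 0)⁻¹ ^ 3)) _ x
    refine ((h3.mul hi3).const_mul (-2)).congr_fderiv ?_
    ext v
    simp [J]
    field_simp
    ring
  · show HasFDerivAt (fun y : EuclideanSpace ℝ (Fin 3) => y 1 + σ * y 2 + 1 - 3 * (r (y 1) ^ 2 * (y 0)⁻¹ ^ 2)) _ x
    refine ((((hp 1).add ((hp 2).const_mul σ)).add_const 1).sub ((h2.mul hi2).const_mul 3)).congr_fderiv ?_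
    ext v
    simp [J]
    field_simp
    ring
  · show HasFDerivAt (fun y : EuclideanSpace ℝ (Fin 3) => σ * y 1 + 4 * y 2 + σ * 16) _ x
    refine ((((hp 1).const_mul σ).add ((hp 2).const_mul 4)).add_const (σ * 16)).congr_fderiv ?_
    ext v
    simp [J]

theorem sym_G (σ : ℝ) (x : EuclideanSpace ℝ (Fin 3)) (hx : x 0 ≠ 0) :
    DifferentiableAt ℝ (G σ) x ∧ ∀ i j, (fderiv ℝ (G σ) x (EuclideanSpace.single j 1)) i =
      (fderiv ℝ (G σ) x (EuclideanSpace.single i 1)) j := by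
  have h := hasFDerivAt_G σ x hx
  refine ⟨h.differentiableAt, ?_⟩
  rw [h.fderiv]
  intro i j
  fin_cases i <;> fin_cases j <;> simp [J]

/-- monotonicity of the gradient of `r ^ 3 / x ^ 2` -/
theorem mono_w {x y t s : ℝ} (hx : 0 < x) (hy : 0 < y) :
    0 ≤ (-2 * (r s ^ 3 * y⁻¹ ^ 3) - -2 * (r t ^ 3 * x⁻¹ ^ 3)) * (y - x) +
      (-(3 * (r s ^ 2 * y⁻¹ ^ 2)) - -(3 * (r t ^ 2 * x⁻¹ ^ 2))) * (s - t) := by
  -- `a = r t / x`, `b = r s / y`
  have key : ∀ {x y t s : ℝ}, 0 < x → 0 < y →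
      (r t) ^ 3 * x⁻¹ ^ 2 + (-2 * (r t ^ 3 * x⁻¹ ^ 3)) * (y - x) + (-(3 * (r t ^ 2 * x⁻¹ ^ 2))) * (s - t) ≤
        (r s) ^ 3 * y⁻¹ ^ 2 := by
    intro x y t s hx hy
    obtain ⟨a, ha⟩ : ∃ a, a = r t * x⁻¹ := ⟨_, rfl⟩
    obtain ⟨b, hb⟩ : ∃ b, b = r s * y⁻¹ := ⟨_, rfl⟩
    have ha0 : 0 ≤ a := by rw [ha]; exact mul_nonneg (r_nonneg t) (by positivity)
    have hb0 : 0 ≤ b := by rw [hb]; exact mul_nonneg (r_nonneg s) (by positivity)
    have hta : r t = a * x := by rw [ha]; field_simp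
    have hsb : r s = b * y := by rw [hb]; field_simp
    have e1 : (r t) ^ 3 * x⁻¹ ^ 2 = a ^ 3 * x := by rw [hta]; field_simp
    have e2 : r t ^ 3 * x⁻¹ ^ 3 = a ^ 3 := by rw [hta]; field_simp
    have e3 : r t ^ 2 * x⁻¹ ^ 2 = a ^ 2 := by rw [hta]; field_simp
    have e4 : (r s) ^ 3 * y⁻¹ ^ 2 = b ^ 3 * y := by rw [hsb]; field_simp
    rw [e1, e2, e3, e4]
    -- `- s ≤ r s`, and `a ^ 2 t = - a ^ 2 (a x)`
    have hs : -s ≤ b * y := by rw [← hsb]; exact le_max_left _ _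
    have ht : a ^ 2 * t = -(a ^ 3 * x) := by
      rcases le_or_gt 0 t with h | h
      · have : a = 0 := by rw [ha, r_of_nonneg h, zero_mul]
        rw [this]; ring
      · have : -t = a * x := by rw [← hta, r_of_neg h]
        have : t = -(a * x) := by linarith
        rw [this]; ring
    have h5 : -(3 * a ^ 2) * s ≤ 3 * a ^ 2 * (b * y) := by nlinarith [mul_nonneg (sq_nonneg a) (sub_nonneg.2 hs)]
    have h6 : 0 ≤ (b - a) ^ 2 * (b + 2 * a) * y := by positivity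
    nlinarith
  have h1 := key (t := t) (s := s) hx hy
  have h2 := key (t := s) (s := t) hy hx
  nlinarith

theorem mono : MonotoneOnSet F3 K3 := by
  have hG : ∀ σ : ℝ, σ ^ 2 = 1 → ∀ x ∈ K3, ∀ y ∈ K3, 0 ≤ ⟪G σ y - G σ x, y - x⟫ := by
    intro σ hσ x hx y hy
    rw [inner_sub_left, inG, inG]
    simp only [PiLp.sub_apply]
    have hx0 : 0 < x 0 := lt_of_lt_of_le one_pos hx
    have hy0 : 0 < y 0 := lt_of_lt_of_le one_pos hy
    have h := mono_w (t := x 1) (s := y 1) hx0 hy0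
    have h2 : 0 ≤ (y 1 - x 1 + σ * (y 2 - x 2)) ^ 2 + 3 * (y 2 - x 2) ^ 2 := by positivity
    have h3 : (y 1 - x 1 + σ * (y 2 - x 2)) ^ 2 + 3 * (y 2 - x 2) ^ 2 =
      (y 1 - x 1) ^ 2 + 2 * σ * (y 1 - x 1) * (y 2 - x 2) + 4 * (y 2 - x 2) ^ 2 := by
      linear_combination (y 2 - x 2) ^ 2 * hσ
    nlinarith
  intro l
  fin_cases l
  · exact hG 1 (by norm_num)
  · exact hG (-1) (by norm_num)

theorem no_zero {x : EuclideanSpace ℝ (Fin 3)} (hx : x ∈ SolW F3 K3) : x 2 ≠ 0 := by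
  intro h2
  have hx0 : 1 ≤ x 0 := hx.1
  rcases le_or_gt 0 (x 1) with h | h
  · refine hx.2 (x - EuclideanSpace.single 1 1) ?_ ?_
    · simp [K3, hx0]
    · intro l
      rw [sub_sub_cancel]
      fin_cases l
      · show 0 < ⟪G 1 x, _⟫
        rw [inG]; simp [r_of_nonneg h, h2]; linarith
      · show 0 < ⟪G (-1) x, _⟫
        rw [inG]; simp [r_of_nonneg h, h2]; linarith
  · refine hx.2 (x + EuclideanSpace.single 0 1) ?_ ?_
    · simp [K3]; linarith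
    · have hr : 0 < r (x 1) := by rw [r_of_neg h]; linarith
      have hx' : 0 < x 0 := by linarith
      intro l
      have : x - (x + EuclideanSpace.single 0 1) = - EuclideanSpace.single 0 (1 : ℝ) := by abel
      rw [this]
      fin_cases l
      · show 0 < ⟪G 1 x, _⟫
        rw [inG]; simp; positivity
      · show 0 < ⟪G (-1) x, _⟫
        rw [inG]; simp; positivity

theorem pr_sub_sol {n m : ℕ} (F : Fin m → EuclideanSpace ℝ (Fin n) → EuclideanSpace ℝ (Fin n))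
    (K : Set (EuclideanSpace ℝ (Fin n))) : SolPr F K ⊆ Sol F K := by
  rintro x ⟨hx, ξ, hξ, _, h⟩
  refine ⟨hx, fun y hy ⟨h1, l, hl⟩ => ?_⟩
  have h2 := h y hy
  have h3 : ⟪∑ l, ξ l • F l x, x - y⟫ = ∑ l, ξ l * ⟪F l x, x - y⟫ := by
    rw [sum_inner]
    simp_rw [real_inner_smul_left]
  have h4 : 0 < ∑ l, ξ l * ⟪F l x, x - y⟫ := by
    apply Finset.sum_pos' (fun l _ => mul_nonneg (hξ l).le (h1 l))
    exact ⟨l, Finset.mem_univ l, mul_pos (hξ l) (lt_of_le_of_ne (h1 l) (Ne.symm hl))⟩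
  have h5 : y - x = -(x - y) := by abel
  rw [h5, inner_neg_right, h3] at h2
  linarith

theorem sol_sub_w {n m : ℕ} (hm : 0 < m) (F : Fin m → EuclideanSpace ℝ (Fin n) → EuclideanSpace ℝ (Fin n))
    (K : Set (EuclideanSpace ℝ (Fin n))) : Sol F K ⊆ SolW F K := by
  rintro x ⟨hx, h⟩
  refine ⟨hx, fun y hy h1 => h y hy ⟨fun l => (h1 l).le, ⟨0, hm⟩, (h1 _).ne'⟩⟩

theorem mem_a : (!₂[1, 0, -2] : EuclideanSpace ℝ (Fin 3)) ∈ SolPr F3 K3 := by
  refine ⟨by simp [K3], ![3 / 4, 1 / 4], ?_, ?_, ?_⟩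
  · intro l; fin_cases l <;> simp
  · simp; norm_num
  · intro y hy
    have : ∑ l, (![3 / 4, 1 / 4] : Fin 2 → ℝ) l • F3 l (!₂[1, 0, -2]) = 0 := by
      rw [Fin.sum_univ_two]
      ext i
      fin_cases i <;> simp [F3, G, r] <;> norm_num
    rw [this, inner_zero_left]

theorem mem_b : (!₂[1, 0, 2] : EuclideanSpace ℝ (Fin 3)) ∈ SolPr F3 K3 := by
  refine ⟨by simp [K3], ![1 / 4, 3 / 4], ?_, ?_, ?_⟩
  · intro l; fin_cases l <;> simp
  · simp; norm_num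
  · intro y hy
    have : ∑ l, (![1 / 4, 3 / 4] : Fin 2 → ℝ) l • F3 l (!₂[1, 0, 2]) = 0 := by
      rw [Fin.sum_univ_two]
      ext i
      fin_cases i <;> simp [F3, G, r] <;> norm_num
    rw [this, inner_zero_left]

theorem not_preconnected {S : Set (EuclideanSpace ℝ (Fin 3))} (h1 : SolPr F3 K3 ⊆ S) (h2 : S ⊆ SolW F3 K3) :
    ¬ IsPreconnected S := by
  intro hpre
  have h3 := (hpre.image (fun x => x 2)
    (by fun_prop : Continuous fun x : EuclideanSpace ℝ (Fin 3) => x 2).continuousOn).ordConnected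
  have h4 : (-2 : ℝ) ∈ (fun x : EuclideanSpace ℝ (Fin 3) => x 2) '' S := ⟨_, h1 mem_a, by simp⟩
  have h5 : (2 : ℝ) ∈ (fun x : EuclideanSpace ℝ (Fin 3) => x 2) '' S := ⟨_, h1 mem_b, by simp⟩
  obtain ⟨x, hx, hx0⟩ := h3.out h4 h5 (show (0 : ℝ) ∈ Set.Icc (-2 : ℝ) 2 by constructor <;> norm_num)
  exact no_zero (h2 hx) hx0

theorem sym : Symmetric F3 K3 := by
  intro l
  refine ⟨{x | 0 < x 0}, isOpen_lt continuous_const (by fun_prop), ?_, ?_⟩
  · intro x hx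
    have : 1 ≤ x 0 := hx
    show 0 < x 0
    linarith
  · intro x hx
    have hx' : x 0 ≠ 0 := ne_of_gt hx
    fin_cases l
    · exact sym_G 1 x hx'
    · exact sym_G (-1) x hx'

/-- There is a symmetric monotone problem on a closed half-space of `ℝ ^ 3` for which the weak Pareto, the Pareto and
the proper Pareto solution sets are all nonempty and disconnected. -/
theorem result : ∃ (n m : ℕ) (K : Set (EuclideanSpace ℝ (Fin n)))
    (F : Fin m → EuclideanSpace ℝ (Fin n) → EuclideanSpace ℝ (Fin n)),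
    K.Nonempty ∧ IsClosed K ∧ Convex ℝ K ∧ (∀ l, ContinuousOn (F l) K) ∧ MonotoneOnSet F K ∧ Symmetric F K ∧
    ((SolW F K).Nonempty ∧ ¬ IsPreconnected (SolW F K)) ∧
    ((Sol F K).Nonempty ∧ ¬ IsPreconnected (Sol F K)) ∧
    ((SolPr F K).Nonempty ∧ ¬ IsPreconnected (SolPr F K)) := by
  have ha := pr_sub_sol F3 K3
  have hb := sol_sub_w (by norm_num) F3 K3
  refine ⟨3, 2, K3, F3, ⟨_, mem_a.1⟩, ?_, ?_, ?_, mono, sym, ⟨⟨_, hb (ha mem_a)⟩, ?_⟩, ⟨⟨_, ha mem_a⟩, ?_⟩,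
    ⟨⟨_, mem_a⟩, ?_⟩⟩
  · exact isClosed_le continuous_const (by fun_prop)
  · intro x hx y hy a b ha hb hab
    have hx' : 1 ≤ x 0 := hx
    have hy' : 1 ≤ y 0 := hy
    show 1 ≤ (a • x + b • y) 0
    simp only [PiLp.add_apply, PiLp.smul_apply, smul_eq_mul]
    nlinarith
  · intro l x hx
    obtain ⟨U, _, hKU, hU⟩ := sym l
    exact (hU x (hKU hx)).1.continuousAt.continuousWithinAt
  · exact not_preconnected (ha.trans hb) subset_rfl
  · exact not_preconnected ha hb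
  · exact not_preconnected subset_rfl (ha.trans hb)

end Pool.Agent.Results.MP_e5975b_an.Disconnected
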